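import Pool.Agent.Helper76_FTU.DE1b

/-! Squad FTU, row DE1 (helper76) -/

set_option autoImplicit false
set_option linter.unusedSectionVars false
set_option linter.unusedVariables false

open MeasureTheory Complex ProbabilityTheory

noncomputable section

namespace Pool.Agent.FTU.H76

open Pool.Agent.Helper49_Pauli Pool.Agent.MBX Pool.Agent.FTU
open Pool.Agent.Loc (γn PB)

variable {ι : Type} [Fintype ι] [DecidableEq ι]

theorem conj_pe (P : MvPolynomial ι ℂ) (y : ι → ℝ) :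
    (starRingEnd ℂ) (pe P y) = pe (MvPolynomial.map (starRingEnd ℂ) P) y := by
  unfold pe
  rw [MvPolynomial.eval_map, ← MvPolynomial.eval₂_id, MvPolynomial.eval₂_comp_left]
  congr 1
  funext i
  exact Complex.conj_ofReal _

theorem nsq_sg (j : Fin 3) (u : S2) : nsq (sg j u) = nsq u := by
  fin_cases j <;> simp [nsq, Fin.sum_univ_two, sg_apply, add_comm]

theorem sq3 (a b c : ℝ) : (a + b + c) ^ 2 ≤ 3 * (a ^ 2 + b ^ 2 + c ^ 2) := by
  nlinarith [sq_nonneg (a - b), sq_nonneg (b - c), sq_nonneg (a - c)]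

theorem nsq_sum3 (u : Fin 3 → S2) : nsq (∑ j, sg j (u j)) ≤ 3 * ∑ j, nsq (u j) := by
  have h : ∀ s, ‖(∑ j, sg j (u j)) s‖ ^ 2 ≤ 3 * ∑ j, ‖(sg j (u j)) s‖ ^ 2 := by
    intro s
    rw [Finset.sum_apply, Fin.sum_univ_three, Fin.sum_univ_three]
    calc ‖sg 0 (u 0) s + sg 1 (u 1) s + sg 2 (u 2) s‖ ^ 2 ≤
          (‖sg 0 (u 0) s‖ + ‖sg 1 (u 1) s‖ + ‖sg 2 (u 2) s‖) ^ 2 :=
          pow_le_pow_left₀ (norm_nonneg _) (norm_add₃_le) 2
      _ ≤ _ := sq3 _ _ _
  calc nsq (∑ j, sg j (u j)) = ∑ s, ‖(∑ j, sg j (u j)) s‖ ^ 2 := rfl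
    _ ≤ ∑ s, 3 * ∑ j, ‖(sg j (u j)) s‖ ^ 2 := Finset.sum_le_sum fun s _ => h s
    _ = 3 * ∑ j, nsq (sg j (u j)) := by
        rw [← Finset.mul_sum, Finset.sum_comm]
        rfl
    _ = _ := by
        congr 1
        exact Finset.sum_congr rfl fun j _ => nsq_sg j _

theorem sg_comp (u : Fin 3 → S2) (s : Fin 2) : (∑ j, sg j (u j)) s =
    if s = 0 then u 0 1 + (-I) * u 1 1 + u 2 0 else u 0 0 + I * u 1 0 + (-1) * u 2 1 := by
  rw [Fin.sum_univ_three, sg_zero, sg_one, sg_two]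
  fin_cases s <;> simp

theorem sg_je {G : Fin 3 → (ι → ℝ) → X3 → S2} (hG : ∀ j s, JE (fun y x => G j y x s)) (s : Fin 2) :
    JE (fun y x => (∑ j, sg j (G j y x)) s) := by
  have e : (fun y x => (∑ j, sg j (G j y x)) s) = fun y x =>
      if s = 0 then G 0 y x 1 + (-I) * G 1 y x 1 + G 2 y x 0
      else G 0 y x 0 + I * G 1 y x 0 + (-1) * G 2 y x 1 := by
    funext y x
    exact sg_comp (fun j => G j y x) s
  rw [e]
  by_cases hs : s = 0
  · simp only [hs, if_true]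
    exact ((hG 0 1).add ((je_const (-I)).mul (hG 1 1))).add (hG 2 0)
  · simp only [hs, if_false]
    exact ((hG 0 0).add ((je_const I).mul (hG 1 0))).add ((je_const (-1)).mul (hG 2 1))

theorem sg_vz {G : Fin 3 → (ι → ℝ) → X3 → S2} {R : ℝ} (hG : ∀ j s, VZ (fun y x => G j y x s) R)
    (s : Fin 2) : VZ (fun y x => (∑ j, sg j (G j y x)) s) R := by
  intro y x hx
  have h : ∀ j s, G j y x s = 0 := fun j s => hG j s y x hx
  show (∑ j, sg j (G j y x)) s = 0
  rw [sg_comp (fun j => G j y x) s]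
  simp [h]

/-- the difference to the projection -/
def DP {d : ℕ} (b : Fin d → MvPolynomial ι ℂ) (h : (ι → ℝ) → X3 → ℂ) : (ι → ℝ) → X3 → ℂ :=
  fun y x => h y x - pr b (fun y' => h y' x) y

theorem dp_je (egc : EgcStmt) {d : ℕ} (b : Fin d → MvPolynomial ι ℂ) {h : (ι → ℝ) → X3 → ℂ}
    (hh : JE h) : JE (DP b h) := hh.sub (hh.prj egc b)

theorem dp_vz {d : ℕ} (b : Fin d → MvPolynomial ι ℂ) {h : (ι → ℝ) → X3 → ℂ} {R : ℝ}
    (hh : VZ h R) : VZ (DP b h) R := by
  intro y x hx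
  show h y x - pr b (fun y' => h y' x) y = 0
  have h1 : h y x = 0 := hh y x hx
  have h2 : pr b (fun y' => h y' x) y = 0 := hh.prj b y x hx
  rw [h1, h2, sub_zero]

theorem dp_bound (egc : EgcStmt) {d : ℕ → ℕ} {b : (n : ℕ) → Fin (d n) → MvPolynomial ι ℂ}
    (p1 : ∀ n (f : (ι → ℝ) → ℂ), EG f → EG (pr (b n) f) ∧
      ∫ y, ‖pr (b n) f y‖ ^ 2 ∂(γn ι) ≤ ∫ y, ‖f y‖ ^ 2 ∂(γn ι))
    {h : (ι → ℝ) → X3 → ℂ} (hh : JE h) :
    ∃ M : ℝ, ∀ m x, ∫ y, ‖DP (b m) h y x‖ ^ 2 ∂(γn ι) ≤ M := by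
  obtain ⟨c1, C, b1⟩ := id hh
  have hf : EG (fun y : ι → ℝ => ((C * Real.exp (C * ∑ i, |y i|) : ℝ) : ℂ)) := by
    refine ⟨?_, |C|, fun y => ?_⟩
    · fun_prop
    · rw [Complex.norm_real, Real.norm_eq_abs, abs_mul, abs_of_pos (Real.exp_pos _)]
      refine mul_le_mul_of_nonneg_left (Real.exp_le_exp.2 (mul_le_mul_of_nonneg_right ?_ (s_nn y)))
        (abs_nonneg _)
      exact le_abs_self C
  have hfi := ((egc ι).2.1 _ hf).2.2
  refine ⟨4 * ∫ y, ‖((C * Real.exp (C * ∑ i, |y i|) : ℝ) : ℂ)‖ ^ 2 ∂(γn ι), fun m x => ?_⟩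
  have he := hh.eg x
  have i1 := ((egc ι).2.1 _ he).2.2
  have i2 := ((egc ι).2.1 _ (p1 m _ he).1).2.2
  have q1 : ∫ y, ‖h y x‖ ^ 2 ∂(γn ι) ≤
      ∫ y, ‖((C * Real.exp (C * ∑ i, |y i|) : ℝ) : ℂ)‖ ^ 2 ∂(γn ι) := by
    refine integral_mono i1 hfi fun y => ?_
    refine pow_le_pow_left₀ (norm_nonneg _) ?_ 2
    rw [Complex.norm_real, Real.norm_eq_abs]
    exact (b1 y x).trans (le_abs_self _)
  have q2 := (p1 m _ he).2
  have q3 : ∫ y, ‖DP (b m) h y x‖ ^ 2 ∂(γn ι) ≤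
      ∫ y, (2 * ‖h y x‖ ^ 2 + 2 * ‖pr (b m) (fun y' => h y' x) y‖ ^ 2) ∂(γn ι) := by
    refine integral_mono_of_nonneg (Filter.Eventually.of_forall fun y => by positivity)
      ((i1.const_mul 2).add (i2.const_mul 2)) (Filter.Eventually.of_forall fun y => ?_)
    show ‖h y x - pr (b m) (fun y' => h y' x) y‖ ^ 2 ≤ _
    have h1 := norm_sub_le (h y x) (pr (b m) (fun y' => h y' x) y)
    have h2 := norm_nonneg (h y x - pr (b m) (fun y' => h y' x) y)
    nlinarith [sq_nonneg (‖h y x‖ - ‖pr (b m) (fun y' => h y' x) y‖)]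
  rw [integral_add (i1.const_mul 2) (i2.const_mul 2), integral_const_mul,
    integral_const_mul] at q3
  linarith

theorem de1 (tcd : TcdStmt) (egc : EgcStmt) (prj : PrjStmt) (smx : SmxStmt) : De1Stmt := by
  intro cut L alpha P psi e hpsi
  obtain ⟨d, b, p1, p2, p3⟩ := prj (Mode cut L)
  obtain ⟨R, hR0, hRx, hRy⟩ := dsp_je tcd egc hpsi e
  have E := egc (Mode cut L)
  -- notation
  let Ph : Fin 2 → (Mode cut L → ℝ) → X3 → ℂ := fun s y x => dsp e psi y x s
  let Psi : ℕ → (Mode cut L → ℝ) → X3 → S2 := fun n y x s =>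
    pr (b (n + 1)) (fun y' => dsp e psi y' x s) y
  let V : Fin 3 → (Mode cut L → ℝ) → X3 → ℂ := fun j y x => ((VV alpha P y x j : ℝ) : ℂ)
  let D0 : ℕ → Fin 2 → (Mode cut L → ℝ) → X3 → ℂ := fun n s => DP (b (n + 1)) (Ph s)
  let DX : ℕ → Fin 3 → Fin 2 → (Mode cut L → ℝ) → X3 → ℂ := fun n j s =>
    DP (b (n + 1)) (dX j (Ph s))
  let DY : ℕ → Mode cut L → Fin 2 → (Mode cut L → ℝ) → X3 → ℂ := fun n i s =>
    DP (b n) (dY i (Ph s))
  let G : ℕ → Fin 3 → (Mode cut L → ℝ) → X3 → S2 := fun n j y x s =>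
    -I * DX n j s y x + V j y x * D0 n s y x
  -- the coefficients of the projection
  have hcs : ∀ n s k, CS (fun x => ∫ y', (starRingEnd ℂ) (pe (b n k) y') * dsp e psi y' x s
      ∂(γn (Mode cut L))) ∧ ∀ (j : Fin 3) (x : X3),
      fderiv ℝ (fun x => ∫ y', (starRingEnd ℂ) (pe (b n k) y') * dsp e psi y' x s
        ∂(γn (Mode cut L))) x (Pi.single j 1) =
      ∫ y', (starRingEnd ℂ) (pe (b n k) y') * dX j (Ph s) y' x ∂(γn (Mode cut L)) := by
    intro n s k
    have h := smx (Mode cut L) e psi hpsi (MvPolynomial.map (starRingEnd ℂ) (b n k)) s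
    have e1 : ∀ y', (starRingEnd ℂ) (pe (b n k) y') =
        pe (MvPolynomial.map (starRingEnd ℂ) (b n k)) y' := fun y' => conj_pe _ _
    simp only [e1]
    exact h
  have hWW : ∀ n, WW (Psi n) := by
    intro n s
    have e1 : (fun y x => Psi n y x s) = ∑ k, Gen (b (n + 1) k) (fun x =>
        ∫ y', (starRingEnd ℂ) (pe (b (n + 1) k) y') * dsp e psi y' x s ∂(γn (Mode cut L))) := by
      funext y x
      rw [Finset.sum_apply, Finset.sum_apply]
      rfl
    rw [e1]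
    exact Submodule.sum_mem _ fun k _ => Submodule.subset_span ⟨_, _, (hcs (n + 1) s k).1, rfl⟩
  have hdX : ∀ n j s y x, dX j (fun y x => Psi n y x s) y x =
      pr (b (n + 1)) (fun y' => dX j (Ph s) y' x) y := by
    intro n j s y x
    have hd : ∀ k, DifferentiableAt ℝ (fun x => ∫ y', (starRingEnd ℂ) (pe (b (n + 1) k) y') *
        dsp e psi y' x s ∂(γn (Mode cut L))) x := fun k =>
      ((hcs (n + 1) s k).1.1.differentiable (by simp)).differentiableAt
    show fderiv ℝ (fun x => ∑ k, pe (b (n + 1) k) y * ∫ y', (starRingEnd ℂ) (pe (b (n + 1) k) y') *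
        dsp e psi y' x s ∂(γn (Mode cut L))) x (Pi.single j 1) = _
    rw [fderiv_fun_sum (fun k _ => (hd k).const_mul _), ContinuousLinearMap.sum_apply]
    refine Finset.sum_congr rfl fun k _ => ?_
    rw [fderiv_const_mul (hd k), ContinuousLinearMap.smul_apply, (hcs (n + 1) s k).2 j x]
    rfl
  have hdY0 : ∀ n i s y x, HasDerivAt (fun t : ℝ => Psi n (Function.update y i t) x s)
      (pr (b n) (fun y' => dY i (Ph s) y' x) y) (y i) := by
    intro n i s y x
    exact p3 n (fun y' => Ph s y' x) (fun y' => dY i (Ph s) y' x) i ((hR0 s).1.eg x)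
      ((hRy i s).1.eg x) (fun y => dY_dsp' tcd hpsi e i s y x) y
  have hdY : ∀ n i s y x, dY i (fun y x => Psi n y x s) y x =
      pr (b n) (fun y' => dY i (Ph s) y' x) y := fun n i s y x => (hdY0 n i s y x).deriv
  -- the field
  let aa : Mode cut L → Fin 3 → X3 → ℝ := fun i j x =>
    Real.sqrt alpha * (am i * Real.cos (dot (kk i) x - tt i) * P.e i.1 i.2 j)
  have hVa : ∀ j y x, VV alpha P y x j = ∑ i, y i * aa i j x := by
    intro j y x
    show Real.sqrt alpha * ∑ i, y i * (am i * Real.cos (dot (kk i) x - tt i) * P.e i.1 i.2 j) = _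
    rw [Finset.mul_sum]
    refine Finset.sum_congr rfl fun i _ => ?_
    show _ = y i * (Real.sqrt alpha * (am i * Real.cos (dot (kk i) x - tt i) * P.e i.1 i.2 j))
    ring
  have haa : ∀ i j x, |aa i j x| ≤ |Real.sqrt alpha| * (|am i| * |P.e i.1 i.2 j|) := by
    intro i j x
    show |Real.sqrt alpha * (am i * Real.cos (dot (kk i) x - tt i) * P.e i.1 i.2 j)| ≤ _
    rw [abs_mul, abs_mul, abs_mul]
    refine mul_le_mul_of_nonneg_left (mul_le_mul_of_nonneg_right ?_ (abs_nonneg _)) (abs_nonneg _)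
    calc |am i| * |Real.cos (dot (kk i) x - tt i)| ≤ |am i| * 1 :=
          mul_le_mul_of_nonneg_left (Real.abs_cos_le_one _) (abs_nonneg _)
      _ = |am i| := mul_one _
  have hac : ∀ i j, Continuous (aa i j) := by
    intro i j
    have hdot : Continuous (fun x : X3 => dot (kk i) x) := by
      show Continuous (fun x : X3 => ∑ l, kk i l * x l)
      exact continuous_finset_sum _ fun l _ => continuous_const.mul (continuous_apply l)
    exact continuous_const.mul ((continuous_const.mul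
      (Real.continuous_cos.comp (hdot.sub continuous_const))).mul continuous_const)
  have hVje : ∀ j, JE (V j) := by
    intro j
    have e1 : V j = fun y x => ∑ i, (fun (y : Mode cut L → ℝ) (x : X3) =>
        pe (MvPolynomial.X i) y * ((aa i j x : ℝ) : ℂ)) y x := by
      funext y x
      show ((VV alpha P y x j : ℝ) : ℂ) = _
      rw [hVa, Complex.ofReal_sum]
      refine Finset.sum_congr rfl fun i _ => ?_
      show _ = pe (MvPolynomial.X i) y * ((aa i j x : ℝ) : ℂ)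
      rw [Complex.ofReal_mul, pe, MvPolynomial.eval_X]
    rw [e1]
    refine JE.sum (fun i => ?_) Finset.univ
    refine (je_of_eg (E.2.2.1 _)).mul (je_x (Complex.continuous_ofReal.comp (hac i j))
      (K := |Real.sqrt alpha| * (|am i| * |P.e i.1 i.2 j|)) fun x => ?_)
    show ‖((aa i j x : ℝ) : ℂ)‖ ≤ _
    rw [Complex.norm_real, Real.norm_eq_abs]
    exact haa i j x
  obtain ⟨A, hA0, hA⟩ : ∃ A : ℝ, 0 ≤ A ∧ ∀ j y x, VV alpha P y x j ^ 2 ≤ A * ∑ i, y i ^ 2 := by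
    refine ⟨∑ j, ∑ i : Mode cut L, (|Real.sqrt alpha| * (|am i| * |P.e i.1 i.2 j|)) ^ 2,
      Finset.sum_nonneg fun j _ => Finset.sum_nonneg fun i _ => sq_nonneg _, fun j y x => ?_⟩
    rw [hVa]
    have h1 := Finset.sum_mul_sq_le_sq_mul_sq (Finset.univ : Finset (Mode cut L))
      (fun i => y i) (fun i => aa i j x)
    have h2 : ∑ i, aa i j x ^ 2 ≤ ∑ i : Mode cut L,
        (|Real.sqrt alpha| * (|am i| * |P.e i.1 i.2 j|)) ^ 2 :=
      Finset.sum_le_sum fun i _ => by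
        rw [← sq_abs (aa i j x)]
        exact pow_le_pow_left₀ (abs_nonneg _) (haa i j x) 2
    have h3 := Finset.single_le_sum (f := fun j => ∑ i : Mode cut L,
      (|Real.sqrt alpha| * (|am i| * |P.e i.1 i.2 j|)) ^ 2)
      (fun j _ => Finset.sum_nonneg fun i _ => sq_nonneg _) (Finset.mem_univ j)
    have h4 : 0 ≤ ∑ i, y i ^ 2 := Finset.sum_nonneg fun i _ => sq_nonneg _
    calc (∑ i, y i * aa i j x) ^ 2 ≤ (∑ i, y i ^ 2) * ∑ i, aa i j x ^ 2 := h1
      _ ≤ (∑ i, y i ^ 2) * _ := mul_le_mul_of_nonneg_left (h2.trans h3) h4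
      _ = _ := mul_comm _ _
  -- the formula for `Hd`
  have hHd : ∀ n y x, Hd alpha P e psi (Psi n) y x =
      ∑ s, ‖D0 n s y x‖ ^ 2 + ∑ s, ‖(∑ j, sg j (G n j y x)) s‖ ^ 2 +
        ∑ i, om i * ∑ s, ‖DY n i s y x‖ ^ 2 := by
    intro n y x
    have e2 : dop (VV alpha P y) (dsp e psi y) x - DD alpha P (Psi n) y x =
        ∑ j, sg j (G n j y x) := by
      show ∑ j, sg j (cov (VV alpha P y) j (dsp e psi y) x) -
        ∑ j, sg j (cov (VV alpha P y) j (Psi n y) x) = _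
      rw [← Finset.sum_sub_distrib]
      refine Finset.sum_congr rfl fun j _ => ?_
      rw [← map_sub]
      congr 1
      funext s
      show (-I * dX j (Ph s) y x + V j y x * Ph s y x) -
        (-I * dX j (fun y x => Psi n y x s) y x + V j y x * Psi n y x s) =
        -I * (dX j (Ph s) y x - pr (b (n + 1)) (fun y' => dX j (Ph s) y' x) y) +
          V j y x * (Ph s y x - Psi n y x s)
      rw [hdX]
      ring
    have e3 : ∀ i, nsq (dY2 i (dsp e psi) y x - dY2 i (Psi n) y x) =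
        ∑ s, ‖DY n i s y x‖ ^ 2 := by
      intro i
      refine Finset.sum_congr rfl fun s _ => ?_
      show ‖dY i (Ph s) y x - dY i (fun y x => Psi n y x s) y x‖ ^ 2 =
        ‖dY i (Ph s) y x - pr (b n) (fun y' => dY i (Ph s) y' x) y‖ ^ 2
      rw [hdY]
    show nsq (dsp e psi y x - Psi n y x) +
      nsq (dop (VV alpha P y) (dsp e psi y) x - DD alpha P (Psi n) y x) +
      ∑ i, om i * nsq (dY2 i (dsp e psi) y x - dY2 i (Psi n) y x) = _
    rw [e2]
    simp only [e3]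
    rfl
  have hD0 : ∀ n s, JE (D0 n s) ∧ VZ (D0 n s) R := fun n s =>
    ⟨dp_je egc _ (hR0 s).1, dp_vz _ (hR0 s).2⟩
  have hDX : ∀ n j s, JE (DX n j s) ∧ VZ (DX n j s) R := fun n j s =>
    ⟨dp_je egc _ (hRx j s).1, dp_vz _ (hRx j s).2⟩
  have hDY : ∀ n i s, JE (DY n i s) ∧ VZ (DY n i s) R := fun n i s =>
    ⟨dp_je egc _ (hRy i s).1, dp_vz _ (hRy i s).2⟩
  have hG : ∀ n j s, JE (fun y x => G n j y x s) ∧ VZ (fun y x => G n j y x s) R := by
    intro n j s
    refine ⟨((je_const (-I)).mul (hDX n j s).1).add ((hVje j).mul (hD0 n s).1), fun y x hx => ?_⟩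
    have h1 : DX n j s y x = 0 := (hDX n j s).2 y x hx
    have h2 : D0 n s y x = 0 := (hD0 n s).2 y x hx
    show -I * DX n j s y x + V j y x * D0 n s y x = 0
    rw [h1, h2, mul_zero, mul_zero, add_zero]
  -- bounds
  have B0 := fun s => dp_bound egc (b := b) p1 (hR0 s).1
  have Bx := fun j s => dp_bound egc (b := b) p1 (hRx j s).1
  have By := fun i s => dp_bound egc (b := b) p1 (hRy i s).1
  choose M0 hM0 using B0
  choose Mx hMx using Bx
  choose My hMy using By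
  have hom : ∀ i : Mode cut L, 0 ≤ om i := fun i => Real.sqrt_nonneg _
  let UB : (Fin 2 → ℝ) → (Fin 3 → Fin 2 → ℝ) → (Mode cut L → Fin 2 → ℝ) → ℝ := fun u0 ux uy =>
    ∑ s, u0 s + 3 * ∑ j, ∑ s, (2 * ux j s + 2 * A * ∑ i, (2 * u0 s + 4 * uy i s)) +
      ∑ i, om i * ∑ s, uy i s
  have hmain : ∀ n x, ∫ y, Hd alpha P e psi (Psi n) y x ∂(γn (Mode cut L)) ≤
      UB (fun s => ∫ y, ‖D0 n s y x‖ ^ 2 ∂(γn (Mode cut L)))
        (fun j s => ∫ y, ‖DX n j s y x‖ ^ 2 ∂(γn (Mode cut L)))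
        (fun i s => ∫ y, ‖DY n i s y x‖ ^ 2 ∂(γn (Mode cut L))) := by
    intro n x
    have g0 := fun s => (hD0 n s).1.eg x
    have gx := fun j s => (hDX n j s).1.eg x
    have gy := fun i s => (hDY n i s).1.eg x
    have i0 := fun s => (E.2.1 _ (g0 s)).2.2
    have ix := fun j s => (E.2.1 _ (gx j s)).2.2
    have iy := fun i s => (E.2.1 _ (gy i s)).2.2
    have i2 : ∀ i s, Integrable (fun y : Mode cut L → ℝ => y i ^ 2 * ‖D0 n s y x‖ ^ 2)
        (γn (Mode cut L)) := by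
      intro i s
      have h1 := (E.2.1 _ (E.1 _ _ (E.2.2.1 (MvPolynomial.X i)) (g0 s)).2).2.2
      refine h1.congr (Filter.Eventually.of_forall fun y => ?_)
      show ‖pe (MvPolynomial.X i) y * D0 n s y x‖ ^ 2 = _
      rw [norm_mul, mul_pow, pe, MvPolynomial.eval_X, Complex.norm_real, Real.norm_eq_abs, sq_abs]
    have q2 : ∀ i s, ∫ y, y i ^ 2 * ‖D0 n s y x‖ ^ 2 ∂(γn (Mode cut L)) ≤
        2 * ∫ y, ‖D0 n s y x‖ ^ 2 ∂(γn (Mode cut L)) +
          4 * ∫ y, ‖DY n i s y x‖ ^ 2 ∂(γn (Mode cut L)) := by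
      intro i s
      refine (E.2.2.2.2 (fun y => D0 n s y x) (fun y => DY n i s y x) i (g0 s) (gy i s)
        fun y => ?_).2
      exact (dY_dsp' tcd hpsi e i s y x).sub (hdY0 n i s y x)
    have hU : ∀ y, Hd alpha P e psi (Psi n) y x ≤
        ∑ s, ‖D0 n s y x‖ ^ 2 + 3 * ∑ j : Fin 3, ∑ s, (2 * ‖DX n j s y x‖ ^ 2 +
          2 * A * ∑ i, y i ^ 2 * ‖D0 n s y x‖ ^ 2) + ∑ i, om i * ∑ s, ‖DY n i s y x‖ ^ 2 := by
      intro y
      rw [hHd]
      have h1 := nsq_sum3 (fun j => G n j y x)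
      have h2 : ∀ j s, ‖G n j y x s‖ ^ 2 ≤ 2 * ‖DX n j s y x‖ ^ 2 +
          2 * A * ∑ i, y i ^ 2 * ‖D0 n s y x‖ ^ 2 := by
        intro j s
        have h3 : ‖G n j y x s‖ ≤ ‖DX n j s y x‖ + |VV alpha P y x j| * ‖D0 n s y x‖ := by
          show ‖-I * DX n j s y x + V j y x * D0 n s y x‖ ≤ _
          refine (norm_add_le _ _).trans (le_of_eq ?_)
          rw [norm_mul, norm_mul, norm_neg, Complex.norm_I, one_mul]
          show _ + ‖((VV alpha P y x j : ℝ) : ℂ)‖ * _ = _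
          rw [Complex.norm_real, Real.norm_eq_abs]
        have h4 := hA j y x
        rw [← Finset.sum_mul]
        have h5 : (|VV alpha P y x j| * ‖D0 n s y x‖) ^ 2 ≤
            A * (∑ i, y i ^ 2) * ‖D0 n s y x‖ ^ 2 := by
          rw [mul_pow, sq_abs]
          exact mul_le_mul_of_nonneg_right h4 (sq_nonneg _)
        have h6 := norm_nonneg (G n j y x s)
        nlinarith [sq_nonneg (‖DX n j s y x‖ - |VV alpha P y x j| * ‖D0 n s y x‖)]
      have h7 : ∑ j, nsq (G n j y x) ≤ ∑ j : Fin 3, ∑ s, (2 * ‖DX n j s y x‖ ^ 2 +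
          2 * A * ∑ i, y i ^ 2 * ‖D0 n s y x‖ ^ 2) :=
        Finset.sum_le_sum fun j _ => Finset.sum_le_sum fun s _ => h2 j s
      have h8 : ∑ s, ‖(∑ j, sg j (G n j y x)) s‖ ^ 2 = nsq (∑ j, sg j (G n j y x)) := rfl
      rw [h8]
      linarith
    have hUi0 : Integrable (fun y => ∑ s, ‖D0 n s y x‖ ^ 2) (γn (Mode cut L)) :=
      integrable_finset_sum _ fun s _ => i0 s
    have hUi1' : ∀ (j : Fin 3) (s : Fin 2), Integrable (fun y => 2 * ‖DX n j s y x‖ ^ 2 +
          2 * A * ∑ i, y i ^ 2 * ‖D0 n s y x‖ ^ 2) (γn (Mode cut L)) := fun j s =>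
      ((ix j s).const_mul 2).add ((integrable_finset_sum _ fun i _ => i2 i s).const_mul (2 * A))
    have hUi1 : Integrable (fun y => 3 * ∑ j : Fin 3, ∑ s, (2 * ‖DX n j s y x‖ ^ 2 +
          2 * A * ∑ i, y i ^ 2 * ‖D0 n s y x‖ ^ 2)) (γn (Mode cut L)) :=
      (integrable_finset_sum _ fun j _ => integrable_finset_sum _ fun s _ =>
        hUi1' j s).const_mul 3
    have hUi2 : Integrable (fun y => ∑ i, om i * ∑ s, ‖DY n i s y x‖ ^ 2) (γn (Mode cut L)) :=
      integrable_finset_sum _ fun i _ => (integrable_finset_sum _ fun s _ => iy i s).const_mul _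
    have hpos : ∀ y, 0 ≤ Hd alpha P e psi (Psi n) y x := by
      intro y
      rw [hHd]
      have := fun i : Mode cut L => hom i
      refine add_nonneg (add_nonneg (Finset.sum_nonneg fun s _ => sq_nonneg _)
        (Finset.sum_nonneg fun s _ => sq_nonneg _)) (Finset.sum_nonneg fun i _ =>
          mul_nonneg (hom i) (Finset.sum_nonneg fun s _ => sq_nonneg _))
    refine (integral_mono_of_nonneg (Filter.Eventually.of_forall hpos)
      ((hUi0.add hUi1).add hUi2) (Filter.Eventually.of_forall hU)).trans ?_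
    have e1 : ∫ y, ((∑ s, ‖D0 n s y x‖ ^ 2 + 3 * ∑ j : Fin 3, ∑ s, (2 * ‖DX n j s y x‖ ^ 2 +
          2 * A * ∑ i, y i ^ 2 * ‖D0 n s y x‖ ^ 2)) + ∑ i, om i * ∑ s, ‖DY n i s y x‖ ^ 2)
          ∂(γn (Mode cut L)) =
        ∑ s, ∫ y, ‖D0 n s y x‖ ^ 2 ∂(γn (Mode cut L)) +
          3 * ∑ j : Fin 3, ∑ s, (2 * ∫ y, ‖DX n j s y x‖ ^ 2 ∂(γn (Mode cut L)) +
          2 * A * ∑ i, ∫ y, y i ^ 2 * ‖D0 n s y x‖ ^ 2 ∂(γn (Mode cut L))) +
          ∑ i, om i * ∑ s, ∫ y, ‖DY n i s y x‖ ^ 2 ∂(γn (Mode cut L)) := by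
      have ia : Integrable (fun y => ∑ s, ‖D0 n s y x‖ ^ 2 +
          3 * ∑ j : Fin 3, ∑ s, (2 * ‖DX n j s y x‖ ^ 2 +
          2 * A * ∑ i, y i ^ 2 * ‖D0 n s y x‖ ^ 2)) (γn (Mode cut L)) := hUi0.add hUi1
      rw [integral_add ia hUi2, integral_add hUi0 hUi1,
        integral_finset_sum _ fun s _ => i0 s, integral_const_mul,
        integral_finset_sum _ fun j _ => integrable_finset_sum _ fun s _ => hUi1' j s,
        integral_finset_sum _ fun i _ =>
          (integrable_finset_sum _ fun s _ => iy i s).const_mul (om i)]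
      congr 1
      · congr 1
        congr 1
        refine Finset.sum_congr rfl fun j _ => ?_
        rw [integral_finset_sum _ fun s _ => hUi1' j s]
        refine Finset.sum_congr rfl fun s _ => ?_
        rw [integral_add ((ix j s).const_mul 2)
          ((integrable_finset_sum _ fun i _ => i2 i s).const_mul (2 * A)), integral_const_mul,
          integral_const_mul, integral_finset_sum _ fun i _ => i2 i s]
      · refine Finset.sum_congr rfl fun i _ => ?_
        rw [integral_const_mul, integral_finset_sum _ fun s _ => iy i s]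
    refine (le_of_eq e1).trans ?_
    show _ ≤ ∑ s, ∫ y, ‖D0 n s y x‖ ^ 2 ∂(γn (Mode cut L)) +
          3 * ∑ j : Fin 3, ∑ s, (2 * ∫ y, ‖DX n j s y x‖ ^ 2 ∂(γn (Mode cut L)) +
          2 * A * ∑ i, (2 * ∫ y, ‖D0 n s y x‖ ^ 2 ∂(γn (Mode cut L)) +
            4 * ∫ y, ‖DY n i s y x‖ ^ 2 ∂(γn (Mode cut L)))) +
          ∑ i, om i * ∑ s, ∫ y, ‖DY n i s y x‖ ^ 2 ∂(γn (Mode cut L))
    refine add_le_add (add_le_add le_rfl (mul_le_mul_of_nonneg_left (Finset.sum_le_sum fun j _ =>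
      Finset.sum_le_sum fun s _ => add_le_add le_rfl (mul_le_mul_of_nonneg_left
        (Finset.sum_le_sum fun i _ => q2 i s) (by positivity))) (by norm_num))) le_rfl
  refine ⟨Psi, UB M0 Mx My, R, hWW, fun n => ?_, fun n x => ?_, fun n y x hx => ?_, fun x => ?_⟩
  · have e1 : (fun z : (Mode cut L → ℝ) × X3 => Hd alpha P e psi (Psi n) z.1 z.2) =
        fun z => ∑ s, ‖D0 n s z.1 z.2‖ ^ 2 + ∑ s, ‖(∑ j, sg j (G n j z.1 z.2)) s‖ ^ 2 +
          ∑ i, om i * ∑ s, ‖DY n i s z.1 z.2‖ ^ 2 := by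
      funext z
      exact hHd n z.1 z.2
    rw [e1]
    refine ((integrable_finset_sum _ fun s _ => (hD0 n s).1.sq_int egc (hD0 n s).2).add
      (integrable_finset_sum _ fun s _ => (sg_je (fun j s => (hG n j s).1) s).sq_int egc
        (sg_vz (fun j s => (hG n j s).2) s))).add
      (integrable_finset_sum _ fun i _ => (integrable_finset_sum _ fun s _ =>
        (hDY n i s).1.sq_int egc (hDY n i s).2).const_mul (om i))
  · refine (hmain n x).trans ?_
    refine add_le_add (add_le_add (Finset.sum_le_sum fun s _ => hM0 s (n + 1) x)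
      (mul_le_mul_of_nonneg_left (Finset.sum_le_sum fun j _ => Finset.sum_le_sum fun s _ =>
        add_le_add (mul_le_mul_of_nonneg_left (hMx j s (n + 1) x) (by norm_num))
          (mul_le_mul_of_nonneg_left (Finset.sum_le_sum fun i _ =>
            add_le_add (mul_le_mul_of_nonneg_left (hM0 s (n + 1) x) (by norm_num))
              (mul_le_mul_of_nonneg_left (hMy i s n x) (by norm_num))) (by positivity)))
        (by norm_num)))
      (Finset.sum_le_sum fun i _ => mul_le_mul_of_nonneg_left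
        (Finset.sum_le_sum fun s _ => hMy i s n x) (hom i))
  · rw [hHd]
    have h1 : ∀ s, D0 n s y x = 0 := fun s => (hD0 n s).2 y x hx
    have h2 : ∀ i s, DY n i s y x = 0 := fun i s => (hDY n i s).2 y x hx
    have h3 : ∀ s, (∑ j, sg j (G n j y x)) s = 0 := fun s =>
      sg_vz (fun j s => (hG n j s).2) s y x hx
    simp [h1, h2, h3]
  · have t0 : ∀ s, Filter.Tendsto (fun n => ∫ y, ‖D0 n s y x‖ ^ 2 ∂(γn (Mode cut L)))
        Filter.atTop (nhds 0) := fun s =>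
      (Filter.tendsto_add_atTop_iff_nat 1).2 (p2 _ ((hR0 s).1.eg x))
    have tx : ∀ j s, Filter.Tendsto (fun n => ∫ y, ‖DX n j s y x‖ ^ 2 ∂(γn (Mode cut L)))
        Filter.atTop (nhds 0) := fun j s =>
      (Filter.tendsto_add_atTop_iff_nat 1).2 (p2 _ ((hRx j s).1.eg x))
    have ty : ∀ i s, Filter.Tendsto (fun n => ∫ y, ‖DY n i s y x‖ ^ 2 ∂(γn (Mode cut L)))
        Filter.atTop (nhds 0) := fun i s => p2 _ ((hRy i s).1.eg x)
    have hlim : Filter.Tendsto (fun n => UB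
        (fun s => ∫ y, ‖D0 n s y x‖ ^ 2 ∂(γn (Mode cut L)))
        (fun j s => ∫ y, ‖DX n j s y x‖ ^ 2 ∂(γn (Mode cut L)))
        (fun i s => ∫ y, ‖DY n i s y x‖ ^ 2 ∂(γn (Mode cut L)))) Filter.atTop
        (nhds (UB (fun _ => 0) (fun _ _ => 0) (fun _ _ => 0))) := by
      refine ((tendsto_finset_sum _ fun s _ => t0 s).add
        (Filter.Tendsto.const_mul _ (tendsto_finset_sum _ fun j _ => tendsto_finset_sum _ fun s _ =>
          (Filter.Tendsto.const_mul _ (tx j s)).add (Filter.Tendsto.const_mul _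
            (tendsto_finset_sum _ fun i _ => (Filter.Tendsto.const_mul _ (t0 s)).add
              (Filter.Tendsto.const_mul _ (ty i s))))))).add
        (tendsto_finset_sum _ fun i _ => Filter.Tendsto.const_mul _
          (tendsto_finset_sum _ fun s _ => ty i s))
    have e0 : UB (fun _ => 0) (fun _ _ => 0) (fun _ _ => 0) = 0 := by
      show ∑ _s : Fin 2, (0 : ℝ) + 3 * ∑ _j : Fin 3, ∑ _s : Fin 2, (2 * (0 : ℝ) +
        2 * A * ∑ _i : Mode cut L, (2 * (0 : ℝ) + 4 * 0)) +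
          ∑ i : Mode cut L, om i * ∑ _s : Fin 2, (0 : ℝ) = 0
      simp
    rw [e0] at hlim
    refine squeeze_zero (fun n => integral_nonneg fun y => ?_) (fun n => hmain n x) hlim
    show 0 ≤ Hd alpha P e psi (Psi n) y x
    rw [hHd]
    exact add_nonneg (add_nonneg (Finset.sum_nonneg fun s _ => sq_nonneg _)
        (Finset.sum_nonneg fun s _ => sq_nonneg _)) (Finset.sum_nonneg fun i _ =>
          mul_nonneg (hom i) (Finset.sum_nonneg fun s _ => sq_nonneg _))

end Pool.Agent.FTU.H76
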