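import Pool.Agent.FTU.Stmts

/-! Squad FTU, row DE1, part 1: jointly continuous functions of exponential growth (helper76) -/

set_option autoImplicit false
set_option linter.unusedSectionVars false
set_option linter.unusedVariables false

open MeasureTheory Complex ProbabilityTheory

noncomputable section

namespace Pool.Agent.FTU.H76

open Pool.Agent.Helper49_Pauli Pool.Agent.MBX Pool.Agent.FTU
open Pool.Agent.Loc (γn PB)

variable {ι : Type} [Fintype ι] [DecidableEq ι]

/-- jointly continuous functions of exponential growth in `y` -/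
def JE (h : (ι → ℝ) → X3 → ℂ) : Prop :=
  (Continuous fun z : (ι → ℝ) × X3 => h z.1 z.2) ∧
    ∃ C : ℝ, ∀ y x, ‖h y x‖ ≤ C * Real.exp (C * ∑ i, |y i|)

/-- vanishing for large `x` -/
def VZ (h : (ι → ℝ) → X3 → ℂ) (R : ℝ) : Prop := ∀ y x, R ≤ ‖x‖ → h y x = 0

theorem s_nn (y : ι → ℝ) : 0 ≤ ∑ i, |y i| := Finset.sum_nonneg fun i _ => abs_nonneg _

theorem exp_bd {C D S : ℝ} (hS : 0 ≤ S) (h : |C| ≤ D) :
    C * Real.exp (C * S) ≤ |C| * Real.exp (D * S) ∧
      |C| * Real.exp (D * S) ≤ D * Real.exp (D * S) := by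
  have h1 : C ≤ D := (le_abs_self C).trans h
  refine ⟨?_, mul_le_mul_of_nonneg_right h (Real.exp_pos _).le⟩
  calc C * Real.exp (C * S) ≤ |C| * Real.exp (C * S) :=
        mul_le_mul_of_nonneg_right (le_abs_self C) (Real.exp_pos _).le
    _ ≤ |C| * Real.exp (D * S) :=
        mul_le_mul_of_nonneg_left (Real.exp_le_exp.2 (mul_le_mul_of_nonneg_right h1 hS))
          (abs_nonneg _)

theorem JE.add {h g : (ι → ℝ) → X3 → ℂ} (hh : JE h) (hg : JE g) :
    JE (fun y x => h y x + g y x) := by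
  obtain ⟨c1, C1, b1⟩ := hh
  obtain ⟨c2, C2, b2⟩ := hg
  refine ⟨c1.add c2, |C1| + |C2|, fun y x => ?_⟩
  have e1 := (exp_bd (C := C1) (D := |C1| + |C2|) (s_nn y) (by linarith [abs_nonneg C2])).1
  have e2 := (exp_bd (C := C2) (D := |C1| + |C2|) (s_nn y) (by linarith [abs_nonneg C1])).1
  calc ‖h y x + g y x‖ ≤ ‖h y x‖ + ‖g y x‖ := norm_add_le _ _
    _ ≤ _ := by
      rw [add_mul]
      linarith [b1 y x, b2 y x]

theorem JE.mul {h g : (ι → ℝ) → X3 → ℂ} (hh : JE h) (hg : JE g) :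
    JE (fun y x => h y x * g y x) := by
  obtain ⟨c1, C1, b1⟩ := hh
  obtain ⟨c2, C2, b2⟩ := hg
  refine ⟨c1.mul c2, |C1| * |C2| + |C1| + |C2|, fun y x => ?_⟩
  have hS := s_nn y
  have p1 := abs_nonneg C1
  have p2 := abs_nonneg C2
  have e1 := (exp_bd (C := C1) (D := |C1|) hS le_rfl).1
  have e2 := (exp_bd (C := C2) (D := |C2|) hS le_rfl).1
  rw [norm_mul]
  calc ‖h y x‖ * ‖g y x‖ ≤ (|C1| * Real.exp (|C1| * ∑ i, |y i|)) *
        (|C2| * Real.exp (|C2| * ∑ i, |y i|)) :=
        mul_le_mul ((b1 y x).trans e1) ((b2 y x).trans e2) (norm_nonneg _) (by positivity)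
    _ = |C1| * |C2| * Real.exp ((|C1| + |C2|) * ∑ i, |y i|) := by
        rw [add_mul, Real.exp_add]
        ring
    _ ≤ (|C1| * |C2| + |C1| + |C2|) *
          Real.exp ((|C1| * |C2| + |C1| + |C2|) * ∑ i, |y i|) := by
        refine mul_le_mul (by linarith) (Real.exp_le_exp.2 (mul_le_mul_of_nonneg_right ?_ hS))
          (Real.exp_pos _).le (by positivity)
        nlinarith

theorem JE.eg {h : (ι → ℝ) → X3 → ℂ} (hh : JE h) (x : X3) : EG (fun y => h y x) := by
  obtain ⟨c1, C1, b1⟩ := hh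
  exact ⟨c1.comp (continuous_id.prodMk continuous_const), C1, fun y => b1 y x⟩

theorem je_of_eg {f : (ι → ℝ) → ℂ} (hf : EG f) : JE (fun y (_ : X3) => f y) := by
  obtain ⟨c1, C1, b1⟩ := hf
  exact ⟨c1.comp continuous_fst, C1, fun y _ => b1 y⟩

theorem je_x {c : X3 → ℂ} (hc : Continuous c) {K : ℝ} (hK : ∀ x, ‖c x‖ ≤ K) :
    JE (fun (_ : ι → ℝ) x => c x) := by
  refine ⟨hc.comp continuous_snd, |K|, fun y x => ?_⟩
  have h1 : 1 ≤ Real.exp (|K| * ∑ i, |y i|) :=
    Real.one_le_exp (mul_nonneg (abs_nonneg _) (s_nn y))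
  calc ‖c x‖ ≤ K := hK x
    _ ≤ |K| * 1 := by rw [mul_one]; exact le_abs_self K
    _ ≤ _ := mul_le_mul_of_nonneg_left h1 (abs_nonneg _)

theorem je_const (c : ℂ) : JE (fun (_ : ι → ℝ) (_ : X3) => c) :=
  je_x continuous_const (K := ‖c‖) fun _ => le_rfl

theorem JE.sub {h g : (ι → ℝ) → X3 → ℂ} (hh : JE h) (hg : JE g) :
    JE (fun y x => h y x - g y x) := by
  have h1 := hh.add ((je_const (-1)).mul hg)
  have e : (fun y x => h y x - g y x) = fun y x => h y x + -1 * g y x := by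
    funext y x
    ring
  rw [e]
  exact h1

theorem JE.sum {κ : Type} {h : κ → (ι → ℝ) → X3 → ℂ} (hh : ∀ k, JE (h k)) (s : Finset κ) :
    JE (fun y x => ∑ k ∈ s, h k y x) := by
  classical
  induction s using Finset.induction_on with
  | empty =>
    have e : (fun (y : ι → ℝ) (x : X3) => ∑ k ∈ (∅ : Finset κ), h k y x) = fun _ _ => 0 := by
      funext y x
      exact Finset.sum_empty
    rw [e]
    exact je_const 0
  | insert a s ha ih =>
    have e : (fun (y : ι → ℝ) (x : X3) => ∑ k ∈ insert a s, h k y x) =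
        fun y x => h a y x + ∑ k ∈ s, h k y x := by
      funext y x
      exact Finset.sum_insert ha
    rw [e]
    exact (hh a).add ih

section egc

variable (egc : EgcStmt)

include egc in
theorem exp_int (C : ℝ) : Integrable (fun y : ι → ℝ => C * Real.exp (C * ∑ i, |y i|)) (γn ι) := by
  have hf : EG (fun y : ι → ℝ => ((C * Real.exp (C * ∑ i, |y i|) : ℝ) : ℂ)) := by
    refine ⟨?_, |C|, fun y => ?_⟩
    · fun_prop
    · rw [Complex.norm_real, Real.norm_eq_abs, abs_mul, abs_of_pos (Real.exp_pos _)]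
      refine mul_le_mul_of_nonneg_left (Real.exp_le_exp.2 (mul_le_mul_of_nonneg_right ?_ (s_nn y)))
        (abs_nonneg _)
      exact le_abs_self C
  have h2 := ((egc ι).2.1 _ hf).2.1.re
  exact h2.congr (Filter.Eventually.of_forall fun y => Complex.ofReal_re _)

include egc in
theorem JE.int {g : (ι → ℝ) → X3 → ℂ} (hg : JE g) :
    Continuous (fun x => ∫ y, g y x ∂(γn ι)) ∧ ∃ K : ℝ, ∀ x, ‖∫ y, g y x ∂(γn ι)‖ ≤ K := by
  obtain ⟨c1, C, b1⟩ := hg
  have hi := exp_int (ι := ι) egc C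
  constructor
  · refine continuous_of_dominated (bound := fun y => C * Real.exp (C * ∑ i, |y i|))
      (fun x => ?_) (fun x => ?_) hi ?_
    · exact (c1.comp (continuous_id.prodMk continuous_const)).aestronglyMeasurable
    · exact Filter.Eventually.of_forall fun y => b1 y x
    · exact Filter.Eventually.of_forall fun y =>
        c1.comp (continuous_const.prodMk continuous_id)
  · refine ⟨∫ y, C * Real.exp (C * ∑ i, |y i|) ∂(γn ι), fun x => ?_⟩
    exact norm_integral_le_of_norm_le hi (Filter.Eventually.of_forall fun y => b1 y x)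

include egc in
theorem JE.sq_int {h : (ι → ℝ) → X3 → ℂ} (hh : JE h) {R : ℝ} (hR : VZ h R) :
    Integrable (fun z : (ι → ℝ) × X3 => ‖h z.1 z.2‖ ^ 2) ((γn ι).prod volume) := by
  obtain ⟨c1, C, b1⟩ := hh
  have hf : EG (fun y : ι → ℝ => ((C * Real.exp (C * ∑ i, |y i|) : ℝ) : ℂ)) := by
    refine ⟨?_, |C|, fun y => ?_⟩
    · fun_prop
    · rw [Complex.norm_real, Real.norm_eq_abs, abs_mul, abs_of_pos (Real.exp_pos _)]
      refine mul_le_mul_of_nonneg_left (Real.exp_le_exp.2 (mul_le_mul_of_nonneg_right ?_ (s_nn y)))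
        (abs_nonneg _)
      exact le_abs_self C
  have h2 := ((egc ι).2.1 _ hf).2.2
  have h3 : Integrable (Set.indicator (Metric.closedBall (0 : X3) R) fun _ => (1 : ℝ)) volume := by
    rw [integrable_indicator_iff Metric.isClosed_closedBall.measurableSet]
    exact integrableOn_const (isCompact_closedBall (0 : X3) R).measure_lt_top.ne
  have h4 := h2.mul_prod h3
  refine h4.mono' ((c1.norm.pow 2).aestronglyMeasurable) (Filter.Eventually.of_forall fun z => ?_)
  rw [Real.norm_eq_abs, abs_of_nonneg (by positivity)]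
  by_cases hz : R ≤ ‖z.2‖
  · rw [hR z.1 z.2 hz, norm_zero, zero_pow two_ne_zero]
    exact mul_nonneg (by positivity) (Set.indicator_nonneg (fun _ _ => zero_le_one) _)
  · rw [Set.indicator_of_mem (by rw [mem_closedBall_zero_iff]; linarith), mul_one]
    refine pow_le_pow_left₀ (norm_nonneg _) ?_ 2
    rw [Complex.norm_real, Real.norm_eq_abs]
    exact (b1 z.1 z.2).trans (le_abs_self _)

include egc in
theorem JE.prj {h : (ι → ℝ) → X3 → ℂ} (hh : JE h) {d : ℕ} (b : Fin d → MvPolynomial ι ℂ) :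
    JE (fun y x => pr b (fun y' => h y' x) y) := by
  refine JE.sum (fun j => ?_) Finset.univ
  have h1 : JE (fun y (_ : X3) => pe (b j) y) := je_of_eg ((egc ι).2.2.1 (b j))
  have h2 : JE (fun y (_ : X3) => (starRingEnd ℂ) (pe (b j) y)) :=
    je_of_eg ((egc ι).2.1 _ ((egc ι).2.2.1 (b j))).1
  obtain ⟨hc, K, hK⟩ := (h2.mul hh).int egc
  exact h1.mul (je_x hc hK)

end egc

theorem VZ.prj {h : (ι → ℝ) → X3 → ℂ} {R : ℝ} (hR : VZ h R) {d : ℕ}
    (b : Fin d → MvPolynomial ι ℂ) : VZ (fun y x => pr b (fun y' => h y' x) y) R := by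
  intro y x hx
  show ∑ j, pe (b j) y * ∫ y', (starRingEnd ℂ) (pe (b j) y') * h y' x ∂(γn ι) = 0
  refine Finset.sum_eq_zero fun j _ => ?_
  have e : (fun y' : ι → ℝ => (starRingEnd ℂ) (pe (b j) y') * h y' x) = fun _ => 0 := by
    funext y'
    rw [hR y' x hx, mul_zero]
  rw [e, integral_zero, mul_zero]

end Pool.Agent.FTU.H76
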