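import Pool.Agent.Helper76_FTU.DE1a

/-! Squad FTU, row DE1, part 2: displaced trial functions and their derivatives (helper76) -/

set_option autoImplicit false
set_option linter.unusedSectionVars false
set_option linter.unusedVariables false

open MeasureTheory Complex ProbabilityTheory

noncomputable section

namespace Pool.Agent.FTU.H76

open Pool.Agent.Helper49_Pauli Pool.Agent.MBX Pool.Agent.FTU
open Pool.Agent.Loc (γn PB)

variable {ι : Type} [Fintype ι] [DecidableEq ι]

theorem tc_je (tcd : TcdStmt) {psi : (ι → ℝ) → X3 → S2} (h : TC psi) :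
    ∃ R : ℝ, ∀ s, JE (fun y x => psi y x s) ∧ VZ (fun y x => psi y x s) R := by
  obtain ⟨-, -, -, -, -, -, hc, C, m, R, hC, hb⟩ := tcd ι psi h
  refine ⟨R, fun s => ⟨⟨?_, C + m, fun y x => ?_⟩, fun y x hx => ?_⟩⟩
  · exact (continuous_apply s).comp hc
  · have h1 := (hb y x).1 s
    have hS := s_nn y
    have h2 : ∏ i, (1 + |y i|) ^ m ≤ Real.exp (m * ∑ i, |y i|) := by
      rw [Finset.mul_sum, Real.exp_sum]
      refine Finset.prod_le_prod (fun i _ => by positivity) fun i _ => ?_
      rw [Real.exp_nat_mul]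
      refine pow_le_pow_left₀ (by positivity) ?_ m
      rw [add_comm]
      exact Real.add_one_le_exp _
    have hm : (0 : ℝ) ≤ m := Nat.cast_nonneg m
    calc ‖psi y x s‖ ≤ C * ∏ i, (1 + |y i|) ^ m := h1
      _ ≤ C * Real.exp (m * ∑ i, |y i|) := mul_le_mul_of_nonneg_left h2 hC
      _ ≤ (C + m) * Real.exp ((C + m) * ∑ i, |y i|) := by
          refine mul_le_mul (by linarith) (Real.exp_le_exp.2 (mul_le_mul_of_nonneg_right
            (by linarith) hS)) (Real.exp_pos _).le (by positivity)
  · show psi y x s = 0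
    rw [(hb y x).2 hx]
    rfl

/-- the shifted function -/
def shi (e : ι → ℝ) (psi : (ι → ℝ) → X3 → S2) : (ι → ℝ) → X3 → S2 :=
  fun y x => psi (fun i => y i - e i) x

theorem tc_shi (tcd : TcdStmt) {psi : (ι → ℝ) → X3 → S2} (h : TC psi) (e : ι → ℝ) :
    TC (shi e psi) := by
  have h1 := (tcd ι psi h).2.2.2.1 (fun i => -e i)
  have e1 : shi e psi = fun y x => psi (fun i => y i + -e i) x := by
    funext y x
    show psi (fun i => y i - e i) x = _
    congr 1
  rw [e1]
  exact h1

theorem dsp_eq (e : ι → ℝ) (psi : (ι → ℝ) → X3 → S2) (y : ι → ℝ) (x : X3) (s : Fin 2) :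
    dsp e psi y x s = (gz e y : ℂ) * shi e psi y x s := rfl

theorem gz_deriv (e y : ι → ℝ) (i : ι) :
    HasDerivAt (fun t : ℝ => ((gz e (Function.update y i t) : ℝ) : ℂ))
      (((e i / 2 * gz e y : ℝ) : ℂ)) (y i) := by
  have h1 : HasDerivAt (fun t => Function.update y i t) (Pi.single i 1) (y i) :=
    hasDerivAt_update y i (y i)
  have h2 : ∀ k, HasDerivAt (fun t => Function.update y i t k * e k)
      ((Pi.single i (1 : ℝ) : ι → ℝ) k * e k) (y i) := fun k =>
    (hasDerivAt_pi.1 h1 k).mul_const (e k)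
  have h3 : HasDerivAt (fun t => ∑ k, Function.update y i t k * e k) (e i) (y i) := by
    have h4 := HasDerivAt.fun_sum (u := Finset.univ) fun k _ => h2 k
    have e1 : ∑ k, (Pi.single i (1 : ℝ) : ι → ℝ) k * e k = e i := by
      rw [Finset.sum_eq_single i]
      · rw [Pi.single_eq_same, one_mul]
      · intro k _ hk
        rw [Pi.single_eq_of_ne hk, zero_mul]
      · intro hi
        exact absurd (Finset.mem_univ _) hi
    rw [e1] at h4
    exact h4
  have h5 := ((h3.div_const 2).sub_const ((∑ i, e i ^ 2) / 4)).exp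
  have h6 : HasDerivAt (fun t : ℝ => gz e (Function.update y i t)) (e i / 2 * gz e y) (y i) := by
    have e2 : Real.exp ((∑ k, Function.update y i (y i) k * e k) / 2 - (∑ i, e i ^ 2) / 4) *
        (e i / 2) = e i / 2 * gz e y := by
      rw [Function.update_eq_self, mul_comm]
      rfl
    rw [e2] at h5
    exact h5
  exact h6.ofReal_comp

section main

variable (tcd : TcdStmt) (egc : EgcStmt) {psi : (ι → ℝ) → X3 → S2} (hpsi : TC psi) (e : ι → ℝ)

include tcd hpsi in
theorem dY_dsp (i : ι) (s : Fin 2) (y : ι → ℝ) (x : X3) :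
    HasDerivAt (fun t : ℝ => dsp e psi (Function.update y i t) x s)
      ((gz e y : ℂ) * (((e i / 2 : ℝ) : ℂ) * shi e psi y x s + dY2 i (shi e psi) y x s)) (y i) := by
  have h1 := gz_deriv e y i
  have h2 := ((tcd ι _ (tc_shi tcd hpsi e)).2.2.1 i).2 y x s
  have h3 := h1.mul h2
  rw [Function.update_eq_self] at h3
  have e1 : (((e i / 2 * gz e y : ℝ) : ℂ)) * shi e psi y x s +
      (gz e y : ℂ) * dY2 i (shi e psi) y x s =
      (gz e y : ℂ) * (((e i / 2 : ℝ) : ℂ) * shi e psi y x s + dY2 i (shi e psi) y x s) := by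
    push_cast
    ring
  rw [e1] at h3
  exact h3

include tcd hpsi in
theorem dX_dsp (j : Fin 3) (s : Fin 2) (y : ι → ℝ) (x : X3) :
    dX j (fun y x => dsp e psi y x s) y x =
      (gz e y : ℂ) * dX j (fun y x => shi e psi y x s) y x := by
  have h1 : DifferentiableAt ℝ (fun x => shi e psi y x s) x :=
    (((tcd ι _ (tc_shi tcd hpsi e)).1 y s).1.differentiable (by simp)).differentiableAt
  show fderiv ℝ (fun x => (gz e y : ℂ) * shi e psi y x s) x (Pi.single j 1) = _
  rw [fderiv_const_mul h1]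
  rfl

include tcd egc hpsi in
/-- the displaced function and its derivatives are in the class -/
theorem dsp_je : ∃ R : ℝ, (∀ s, JE (fun y x => dsp e psi y x s) ∧ VZ (fun y x => dsp e psi y x s) R) ∧
    (∀ j s, JE (dX j (fun y x => dsp e psi y x s)) ∧ VZ (dX j (fun y x => dsp e psi y x s)) R) ∧
    (∀ i s, JE (dY i (fun y x => dsp e psi y x s)) ∧ VZ (dY i (fun y x => dsp e psi y x s)) R) := by
  have hs := tc_shi tcd hpsi e
  obtain ⟨R0, h0⟩ := tc_je tcd hs
  have hx := fun j => tc_je tcd ((tcd ι _ hs).2.1 j)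
  have hy := fun i => tc_je tcd ((tcd ι _ hs).2.2.1 i).1
  choose Rx hx using hx
  choose Ry hy using hy
  have hg : JE (fun y (_ : X3) => (gz e y : ℂ)) := je_of_eg ((egc ι).2.2.2.1 e)
  have b0 : R0 ≤ |R0| + ∑ j, |Rx j| + ∑ i, |Ry i| := by
    have := le_abs_self R0
    have := Finset.sum_nonneg fun j (_ : j ∈ Finset.univ) => abs_nonneg (Rx j)
    have := Finset.sum_nonneg fun j (_ : j ∈ Finset.univ) => abs_nonneg (Ry j)
    linarith
  have bx : ∀ j, Rx j ≤ |R0| + ∑ j, |Rx j| + ∑ i, |Ry i| := by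
    intro j
    have := abs_nonneg R0
    have := le_abs_self (Rx j)
    have := Finset.single_le_sum (fun j _ => abs_nonneg (Rx j)) (Finset.mem_univ j)
    have := Finset.sum_nonneg fun j (_ : j ∈ Finset.univ) => abs_nonneg (Ry j)
    linarith
  have byy : ∀ i, Ry i ≤ |R0| + ∑ j, |Rx j| + ∑ i, |Ry i| := by
    intro i
    have := abs_nonneg R0
    have := le_abs_self (Ry i)
    have := Finset.single_le_sum (fun j _ => abs_nonneg (Ry j)) (Finset.mem_univ i)
    have := Finset.sum_nonneg fun j (_ : j ∈ Finset.univ) => abs_nonneg (Rx j)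
    linarith
  refine ⟨|R0| + ∑ j, |Rx j| + ∑ i, |Ry i|, fun s => ⟨hg.mul (h0 s).1, fun y x h => ?_⟩,
    fun j s => ?_, fun i s => ?_⟩
  · show (gz e y : ℂ) * shi e psi y x s = 0
    have h1 : shi e psi y x s = 0 := (h0 s).2 y x (b0.trans h)
    rw [h1, mul_zero]
  · have e1 : dX j (fun y x => dsp e psi y x s) =
        fun y x => (gz e y : ℂ) * dX j (fun y x => shi e psi y x s) y x := by
      funext y x
      exact dX_dsp tcd hpsi e j s y x
    rw [e1]
    refine ⟨hg.mul (hx j s).1, fun y x h => ?_⟩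
    have h1 : dX j (fun y x => shi e psi y x s) y x = 0 := (hx j s).2 y x ((bx j).trans h)
    show (gz e y : ℂ) * dX j (fun y x => shi e psi y x s) y x = 0
    rw [h1, mul_zero]
  · have e1 : dY i (fun y x => dsp e psi y x s) =
        fun y x => (gz e y : ℂ) * (((e i / 2 : ℝ) : ℂ) * shi e psi y x s +
          dY2 i (shi e psi) y x s) := by
      funext y x
      exact (dY_dsp tcd hpsi e i s y x).deriv
    rw [e1]
    refine ⟨hg.mul (((je_const _).mul (h0 s).1).add (hy i s).1), fun y x h => ?_⟩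
    have h1 : dY2 i (shi e psi) y x s = 0 := (hy i s).2 y x ((byy i).trans h)
    have h2 : shi e psi y x s = 0 := (h0 s).2 y x (b0.trans h)
    show (gz e y : ℂ) * (((e i / 2 : ℝ) : ℂ) * shi e psi y x s + dY2 i (shi e psi) y x s) = 0
    rw [h1, h2]
    ring

include tcd hpsi in
theorem dY_dsp' (i : ι) (s : Fin 2) (y : ι → ℝ) (x : X3) :
    HasDerivAt (fun t : ℝ => dsp e psi (Function.update y i t) x s)
      (dY i (fun y x => dsp e psi y x s) y x) (y i) := by
  have h := dY_dsp tcd hpsi e i s y x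
  have e1 : dY i (fun y x => dsp e psi y x s) y x = _ := h.deriv
  rw [e1]
  exact h

end main

end Pool.Agent.FTU.H76
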